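import Pool.Agent.TH192.MU.Holo

set_option autoImplicit false

/-! # The holomorphy conjecture for powers of polynomials of weighted degree one

Let `F ∈ ℂ[x_1, …, x_n]`, `F ≠ 0`, and suppose that for some integers `c_i` (of any sign) every monomial
`x ^ m` of `F` has the weight `∑ c_i m_i = 1`. Examples are all polynomials
`F = ∑_j y_j h_j(x)` with arbitrary polynomials `h_j`, and all products `∏_t F_t ^ (b_t)` of such
polynomials with separate variables `y_{t,j}` and with `b_t` of greatest common divisor `1`. Let
`f = F ^ g`, `g ≥ 1`.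

The twisted topological zeta function `Z^(e)` is taken from the spaces of jets, as Denef and Loeser do
in their paper on motivic Igusa zeta functions (1998). For a character `α` of order `e` of the group of
the roots of unity they form the series of the `α`-parts of the classes of the covers
`U_{d,k} = {(φ, w) | f(φ) = w ^ k t ^ d mod t ^ (d + 1), w ≠ 0}` (`JetC`), `e ∣ k`, of the sets of the
`d`-jets on which `f` has the order `d`; its Euler characteristic at `T = 𝕃 ^ (-s)` is `Z^(e)(s)`. The
class of `U_{d,k}` is the sum of its parts over all characters with `α ^ k = 1`, so the topological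
zeta function `Y_k` of the series `∑_{d ≥ 1} [U_{d,k}] 𝕃 ^ (-n d) T ^ d` (`zetaC`) is
`∑_{e ∣ k} φ(e) Z^(e)`. In terms of a resolution: the cover over the stratum `E_J°` contributes
`gcd(k, m_J) χ(E_J°) ∏_{i ∈ J} 1 / (N_i s + ν_i)`, and `gcd(k, m_J) = ∑_{e ∣ k, e ∣ m_J} φ(e)`. So
`Z^(e)` is defined by `φ(e) Z^(e) = ∑_{i k = e} μ(i) Y_k` (`IsTwistedTop`; the empty `J` is left out,
which changes `Z^(e)` by a constant at most). The topological zeta function of a series is its value
at `T = 𝕃 ^ (-s)` under a homomorphism `E` from the Grothendieck ring `𝓜` to a domain `R`, such as the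
Hodge-Deligne polynomial, and then a homomorphism `ε` from `R` to `ℂ`, such as `u, v ↦ 1`
(`IsTopZeta`).

The proof: for a one-parameter group `f` is multiplied by `λ ^ g`, and the jets on which `F` has a
given order are the product of the multiplicative group and of the set where the angular component
of `F` is `1`; so `[U_{d,k}] = gcd(k, g) [U_{d,1}]` (`chi_JetC`). -/

namespace Pool.Agent.Results.MP_3c7f5c_ag.WeightedDegreeOne

open MvPolynomial Pool.Agent.W428.MOT Pool.Agent.H628R4.TP Pool.Agent.TH192.MU

/-- **The holomorphy conjecture holds for `f = F ^ g`, `F` of weighted degree one.** Let `Z` be the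
twisted topological zeta function of `f` for the integer `e ≥ 1`. If `e` does not divide `g`, then
`Z = 0`. If `e` divides `g`, then `Z` is the topological zeta function of
`∑_{d ≥ 1} [U_{d,1}] 𝕃 ^ (-n d) T ^ d`, that is the one for `e = 1`, and there is a rational number `r`
whose denominator is divisible by `e` and which is a root of every polynomial `b` with
`b(s) f ^ s = P(s) f ^ (s + 1)`, in particular of the Bernstein-Sato polynomial of `f`: by the theorem
of Malgrange and Kashiwara `exp(2 π i r)` is an eigenvalue of the monodromy of `f`, and `e` divides its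
order. -/
theorem result (n : ℕ) (F : MvPolynomial (Fin n) ℂ) (hF : F ≠ 0) (c : Fin n → ℤ)
    (hc : ∀ m ∈ F.support, ∑ i, (m i : ℤ) * c i = 1) (g : ℕ) (hg : 0 < g) (e : ℕ) (he : 0 < e)
    (R : Type) [CommRing R] [IsDomain R] (E : MK ℂ →+* R) (ε : R →+* ℂ) (Z : RatFunc ℂ)
    (hZ : IsTwistedTop E ε (F ^ g) e Z) :
    (¬ e ∣ g → Z = 0) ∧ (e ∣ g → IsTopZeta E ε (zetaC (F ^ g) 1) Z) ∧
    (e ∣ g → ∃ r : ℚ, e ∣ r.den ∧ ∀ b : Polynomial ℂ, IsBFunction (F ^ g) b →
      b.eval (r : ℂ) = 0) :=
  holo_main F hF c hc g hg e he E ε Z hZ

end Pool.Agent.Results.MP_3c7f5c_ag.WeightedDegreeOne
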